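import Pool.Agent.Lib.MP_31386d_pr.Translate

/-!
# Comparison inequalities in the cluster weight, and reduction to a dense set of cluster weights
-/

set_option autoImplicit false

namespace Pool.Agent.Lib.MP_31386d_pr_REALQ

open Finset
open Pool.Agent.Lib.MP_31386d_pr

variable {d : ℕ} {V : Finset (Pt d)} {E : Finset (Ed d)} {u q r : ℝ}

theorem kap_anti (V : Finset (Pt d)) {s t : Finset (Ed d)} (h : s ⊆ t) : kap V t ≤ kap V s :=
  kap_mono subset_rfl h

theorem kap_union_le (V : Finset (Pt d)) (s t : Finset (Ed d)) :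
    kap V t ≤ kap V (s ∪ t) + (s \ t).card := by
  classical
  have key : ∀ a : Finset (Ed d), kap V t ≤ kap V (a ∪ t) + a.card := by
    intro a
    induction a using Finset.induction_on with
    | empty => simp
    | insert e a he ih =>
      rw [insert_union, card_insert_of_notMem he]
      have := kap_insert V (a ∪ t) e
      omega
  have := key (s \ t)
  rwa [sdiff_union_self_eq_union] at this

/-- Increasing the cluster weight at a fixed edge parameter decreases the measure. -/
theorem Ex_dom_q (hu : 0 < u) (hq : 1 ≤ q) (hr : 1 ≤ r)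
    {f : Finset (Ed d) → ℝ} (hf0 : ∀ ω, 0 ≤ f ω) (hf : ∀ s t, s ⊆ t → f s ≤ f t) :
    Ex u (q * r) V E f ≤ Ex u q V E f := by
  have hq' : 1 ≤ q * r := by nlinarith
  have hq0 : 0 < q := by linarith
  have hr0 : 0 < r := by linarith
  have hZ := Z_pos hu hq V E
  have hZ' := Z_pos hu hq' V E
  have h : Zs u (q * r) V E f * Z u q V E ≤ Z u (q * r) V E * Zs u q V E f := by
    refine four_fun E (fun ω => mul_nonneg (wt_pos hu hq' _ _).le (hf0 ω))
      (fun ω => (wt_pos hu hq _ _).le) (fun ω => (wt_pos hu hq' _ _).le)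
      (fun ω => mul_nonneg (wt_pos hu hq _ _).le (hf0 ω)) (fun s _ t _ => ?_)
    have h1 : u ^ s.card * u ^ t.card = u ^ (s ∩ t).card * u ^ (s ∪ t).card := by
      rw [← pow_add, ← pow_add, add_comm (s ∩ t).card, card_union_add_card_inter]
    have h2 : q ^ kap V s * q ^ kap V t ≤ q ^ kap V (s ∩ t) * q ^ kap V (s ∪ t) := by
      have h3 := kap_inf_sup' V V s t
      rw [union_self, inter_self] at h3
      rw [← pow_add, ← pow_add]
      exact pow_le_pow_right₀ hq h3
    have h3 : r ^ kap V s ≤ r ^ kap V (s ∩ t) :=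
      pow_le_pow_right₀ hr (kap_anti V inter_subset_left)
    unfold wt
    rw [mul_pow, mul_pow]
    calc u ^ s.card * (q ^ kap V s * r ^ kap V s) * f s * (u ^ t.card * q ^ kap V t)
        = (u ^ s.card * u ^ t.card) * ((q ^ kap V s * q ^ kap V t) * r ^ kap V s) * f s := by ring
      _ ≤ (u ^ (s ∩ t).card * u ^ (s ∪ t).card) *
          ((q ^ kap V (s ∩ t) * q ^ kap V (s ∪ t)) * r ^ kap V (s ∩ t)) * f (s ∪ t) := by
          rw [h1]
          apply mul_le_mul _ (hf _ _ subset_union_left) (hf0 _) (by positivity)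
          apply mul_le_mul_of_nonneg_left _ (by positivity)
          exact mul_le_mul h2 h3 (by positivity) (by positivity)
      _ = _ := by ring
  unfold Ex
  rw [div_le_div_iff₀ hZ' hZ]
  linarith

/-- Increasing the cluster weight and the edge parameter by the same factor increases the
measure. -/
theorem Ex_dom_qu (hu : 0 < u) (hq : 1 ≤ q) (hr : 1 ≤ r)
    {f : Finset (Ed d) → ℝ} (hf0 : ∀ ω, 0 ≤ f ω) (hf : ∀ s t, s ⊆ t → f s ≤ f t) :
    Ex u q V E f ≤ Ex (u * r) (q * r) V E f := by
  have hq' : 1 ≤ q * r := by nlinarith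
  have hq0 : 0 < q := by linarith
  have hr0 : 0 < r := by linarith
  have hu' : 0 < u * r := by positivity
  have hZ := Z_pos hu hq V E
  have hZ' := Z_pos hu' hq' V E
  have h : Zs u q V E f * Z (u * r) (q * r) V E ≤
      Z u q V E * Zs (u * r) (q * r) V E f := by
    refine four_fun E (fun ω => mul_nonneg (wt_pos hu hq _ _).le (hf0 ω))
      (fun ω => (wt_pos hu' hq' _ _).le) (fun ω => (wt_pos hu hq _ _).le)
      (fun ω => mul_nonneg (wt_pos hu' hq' _ _).le (hf0 ω)) (fun s _ t _ => ?_)
    have h1 : u ^ s.card * u ^ t.card = u ^ (s ∩ t).card * u ^ (s ∪ t).card := by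
      rw [← pow_add, ← pow_add, add_comm (s ∩ t).card, card_union_add_card_inter]
    have h2 : q ^ kap V s * q ^ kap V t ≤ q ^ kap V (s ∩ t) * q ^ kap V (s ∪ t) := by
      have h3 := kap_inf_sup' V V s t
      rw [union_self, inter_self] at h3
      rw [← pow_add, ← pow_add]
      exact pow_le_pow_right₀ hq h3
    have h3 : r ^ t.card * r ^ kap V t ≤ r ^ (s ∪ t).card * r ^ kap V (s ∪ t) := by
      rw [← pow_add, ← pow_add]
      apply pow_le_pow_right₀ hr
      have h4 := kap_union_le V s t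
      have h5 : (s ∪ t).card = (s \ t).card + t.card := (card_sdiff_add_card s t).symm
      omega
    unfold wt
    simp only [mul_pow]
    calc u ^ s.card * q ^ kap V s * f s *
          (u ^ t.card * r ^ t.card * (q ^ kap V t * r ^ kap V t))
        = (u ^ s.card * u ^ t.card) * ((q ^ kap V s * q ^ kap V t) *
            (r ^ t.card * r ^ kap V t)) * f s := by ring
      _ ≤ (u ^ (s ∩ t).card * u ^ (s ∪ t).card) *
          ((q ^ kap V (s ∩ t) * q ^ kap V (s ∪ t)) *
            (r ^ (s ∪ t).card * r ^ kap V (s ∪ t))) * f (s ∪ t) := by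
          rw [h1]
          apply mul_le_mul _ (hf _ _ subset_union_left) (hf0 _) (by positivity)
          apply mul_le_mul_of_nonneg_left _ (by positivity)
          exact mul_le_mul h2 h3 (by positivity) (by positivity)
      _ = _ := by ring
  unfold Ex
  rw [div_le_div_iff₀ hZ hZ']
  linarith

/-- The same two comparison inequalities for the probabilities of increasing events. -/
theorem Pb_dom_q (hu : 0 < u) (hq : 1 ≤ q) (hr : 1 ≤ r)
    {P : Finset (Ed d) → Prop} (hP : ∀ s t, s ⊆ t → P s → P t) :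
    Pb u (q * r) V E P ≤ Pb u q V E P := by
  classical
  unfold Pb
  refine Ex_dom_q hu hq hr (fun ω => ?_) (fun s t hst => ?_)
  · split_ifs <;> norm_num
  · by_cases hs : P s
    · rw [if_pos hs, if_pos (hP s t hst hs)]
    · rw [if_neg hs]
      split_ifs <;> norm_num

theorem Pb_dom_qu (hu : 0 < u) (hq : 1 ≤ q) (hr : 1 ≤ r)
    {P : Finset (Ed d) → Prop} (hP : ∀ s t, s ⊆ t → P s → P t) :
    Pb u q V E P ≤ Pb (u * r) (q * r) V E P := by
  classical
  unfold Pb
  refine Ex_dom_qu hu hq hr (fun ω => ?_) (fun s t hst => ?_)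
  · split_ifs <;> norm_num
  · by_cases hs : P s
    · rw [if_pos hs, if_pos (hP s t hst hs)]
    · rw [if_neg hs]
      split_ifs <;> norm_num

/-- Uniform connectivity in thick slabs above the wired percolation threshold, for the dimension
`d` and the cluster weight `q`. This is the hypothesis of `translate`. -/
def SlabQ (d : ℕ) (q : ℝ) : Prop :=
  ∀ u u' : ℝ, 0 < u → u < u' → (∃ c : ℝ, 0 < c ∧ ∀ r : ℕ, c ≤ thw d u q r) →
    ∃ L₀ : ℕ, ∀ L : ℕ, L₀ ≤ L → ∃ α : ℝ, 0 < α ∧ ∀ n : ℕ, ∀ x ∈ slab d L n,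
      α < Pb u' q (slab d L n) (EI (slab d L n)) (fun ω => Conn ω 0 x)

/-- If the slab theorem holds for cluster weights `q'` arbitrarily close to `q` from above, then it
holds for `q`. -/
theorem slabQ_of_dense {q : ℝ} (hq : 1 ≤ q)
    (h : ∀ ε : ℝ, 0 < ε → ∃ q' : ℝ, q ≤ q' ∧ q' < q + ε ∧ SlabQ d q') : SlabQ d q := by
  intro u u' hu huu hc
  obtain ⟨c, hc0, hc⟩ := hc
  have hq0 : 0 < q := by linarith
  obtain ⟨q', h1, h2, h3⟩ := h (q * (u' / u - 1)) (mul_pos hq0 (by
    rw [sub_pos, one_lt_div hu]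
    exact huu))
  have hr : 1 ≤ q' / q := by rwa [one_le_div hq0]
  have hqr : q * (q' / q) = q' := by field_simp
  have hlt : u * (q' / q) < u' := by
    have h4 : q' < q * (u' / u) := by linarith
    have h5 : q' / q < u' / u := by
      rw [div_lt_iff₀ hq0]
      linarith
    calc u * (q' / q) < u * (u' / u) := mul_lt_mul_of_pos_left h5 hu
      _ = u' := by field_simp
  obtain ⟨L₀, hL⟩ := h3 (u * (q' / q)) u' (by positivity) hlt ⟨c, hc0, fun r => by
    have h6 : thw d u q r ≤ thw d (u * (q' / q)) (q * (q' / q)) r := by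
      unfold thw
      exact Pb_dom_qu hu hq hr (fun s t hst hs => hs.mono hst subset_rfl)
    rw [hqr] at h6
    exact (hc r).trans h6⟩
  refine ⟨L₀, fun L hLL => ?_⟩
  obtain ⟨α, hα, hx⟩ := hL L hLL
  refine ⟨α, hα, fun n x hxm => ?_⟩
  have h7 := hx n x hxm
  refine lt_of_lt_of_le h7 ?_
  rw [← hqr]
  exact Pb_dom_q (hu.trans huu) hq hr (fun s t hst hs => hs.mono hst)

/-- If the slab theorem holds for all cluster weights in a dense subset of `(1, ∞)`, then it holds
for every `q ≥ 1`. -/
theorem slabQ_of_dense_set {D : Set ℝ} (hD : Dense D) (h : ∀ q ∈ D, 1 < q → SlabQ d q)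
    {q : ℝ} (hq : 1 ≤ q) : SlabQ d q := by
  refine slabQ_of_dense hq (fun ε hε => ?_)
  obtain ⟨q', h1, h2, h3⟩ := hD.exists_between (show q < q + ε by linarith)
  exact ⟨q', h2.le, h3, h q' h1 (by linarith)⟩

/-- The frozen statement, from the slab theorem for a dense set of cluster weights (which may
depend on the dimension). The case `q = 1` (Grimmett and Marstrand) is included. -/
theorem frozen_of_dense (H : ∀ d : ℕ, 3 ≤ d → ∃ D : Set ℝ, Dense D ∧ ∀ q ∈ D, 1 < q → SlabQ d q) :
    ∀ d : ℕ, 3 ≤ d → ∀ q : ℝ, 1 ≤ q → FrozenFor d q := by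
  intro d hd q hq
  obtain ⟨D, hD, h⟩ := H d hd
  exact translate d hd q hq (slabQ_of_dense_set hD h hq)

/-- The frozen statement, from the slab theorem for every cluster weight above one. -/
theorem frozen_of_slabQ (H : ∀ d : ℕ, 3 ≤ d → ∀ q : ℝ, 1 < q → SlabQ d q) :
    ∀ d : ℕ, 3 ≤ d → ∀ q : ℝ, 1 ≤ q → FrozenFor d q :=
  frozen_of_dense (fun d hd => ⟨Set.univ, dense_univ, fun q _ hq => H d hd q hq⟩)

end Pool.Agent.Lib.MP_31386d_pr_REALQ
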